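import Pool.Agent.Helper6.NX.GoalsA

/-! # NX, packet L1: basics on laws and entropies -/

namespace Pool.Agent.Helper24.NX

open Pool.Agent.Helper6.NX

variable {Ω α : Type} [Fintype Ω]

theorem law_nonneg {P : Ω → ℝ} (hP : IsLaw P) (X : Ω → α) (a : α) : 0 ≤ law P X a := by
  classical
  unfold law
  apply Finset.sum_nonneg
  intro ω _
  split_ifs
  · exact hP.1 ω
  · exact le_refl _

theorem le_law {P : Ω → ℝ} (hP : IsLaw P) (X : Ω → α) (ω : Ω) : P ω ≤ law P X (X ω) := by
  classical
  unfold law
  have h := Finset.single_le_sum (s := Finset.univ)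
    (f := fun ω' => if X ω' = X ω then P ω' else 0) (fun ω' _ => by
      split_ifs
      · exact hP.1 ω'
      · exact le_refl _) (Finset.mem_univ ω)
  simpa using h

theorem law_le_one {P : Ω → ℝ} (hP : IsLaw P) (X : Ω → α) (a : α) : law P X a ≤ 1 := by
  classical
  unfold law
  rw [← hP.2]
  apply Finset.sum_le_sum
  intro ω _
  split_ifs
  · exact le_refl _
  · exact hP.1 ω

theorem ent_nonneg {P : Ω → ℝ} (hP : IsLaw P) (X : Ω → α) : 0 ≤ ent P X := by
  unfold ent
  rw [neg_nonneg]
  apply Finset.sum_nonpos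
  intro ω _
  exact mul_nonpos_of_nonneg_of_nonpos (hP.1 ω)
    (Real.log_nonpos (law_nonneg hP X _) (law_le_one hP X _))

theorem thmL1 : S_L1 := by
  classical
  intro Ω α _ P X hP
  refine ⟨law_nonneg hP X, le_law hP X, law_le_one hP X, ent_nonneg hP X, ?_⟩
  intro s φ hs
  have h1 : ∀ a ∈ s, law P X a * φ a = ∑ ω, if X ω = a then P ω * φ a else 0 := by
    intro a _
    unfold law
    rw [Finset.sum_mul]
    apply Finset.sum_congr rfl
    intro ω _
    split_ifs
    · rfl
    · ring
  rw [Finset.sum_congr rfl h1, Finset.sum_comm]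
  apply Finset.sum_congr rfl
  intro ω _
  by_cases hω : 0 < P ω
  · rw [Finset.sum_eq_single (X ω)]
    · simp
    · intro a _ ha
      rw [if_neg (fun h => ha h.symm)]
    · intro h
      exact absurd (hs ω hω) h
  · have h0 : P ω = 0 := le_antisymm (not_lt.mp hω) (hP.1 ω)
    simp [h0]

end Pool.Agent.Helper24.NX
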